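import Pool.Agent.H43.Frog3.Link
import Pool.Agent.H80.T3.Stm

/-!
# The link for the values of the project T3
-/

set_option autoImplicit false

namespace Pool.Agent.H43.Frog3

open Pool.Agent.H80.T3

theorem sum_stp {x : ℝ} (f : Finset T → Multiset T → ℝ) (Z : Finset T) (A : Multiset T) {y : T}
    (hy : y ∈ A) : (1 / 12) * ∑ c : Cc, Pool.Agent.H43.Frog3.wt x (mv y c) *
      f (Z.erase (mv y c)) (an Z A y (mv y c)) = stp x f Z (A.erase y) y := by
  have hg : ∀ z : T, Pool.Agent.H43.Frog3.wt x z * f (Z.erase z) (an Z A y z) =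
      arr x f Z (A.erase y) z := by
    intro z
    unfold arr an Pool.Agent.H43.Frog3.wt Pool.Agent.H80.T3.wt
    by_cases hz : z ∈ Z
    · rw [if_pos hz, if_pos hz, Multiset.singleton_add]
    · rw [if_neg hz, if_neg hz, zero_add, Finset.erase_eq_of_notMem hz]
  simp only [hg]
  unfold stp
  rw [Fintype.sum_prod_type]
  by_cases h : y = []
  · subst h
    rw [if_pos rfl]
    simp only [mv, if_true, Finset.sum_const, Finset.card_univ, Fintype.card_fin, nsmul_eq_mul]
    rw [← Finset.mul_sum]
    push_cast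
    ring
  · rw [if_neg h]
    have h1 : ∀ i : Fin 3, ∑ j : Fin 4, arr x f Z (A.erase y) (mv y (i, j)) =
        arr x f Z (A.erase y) y.tail + 3 * arr x f Z (A.erase y) (i :: y) := by
      intro i
      rw [Fin.sum_univ_four]
      have e1 : ¬ ((1 : Fin 4) = 0) := by decide
      have e2 : ¬ ((2 : Fin 4) = 0) := by decide
      have e3 : ¬ ((3 : Fin 4) = 0) := by decide
      simp only [mv, if_neg h, if_neg e1, if_neg e2, if_neg e3, if_true]
      ring
    simp only [h1]
    rw [Finset.sum_add_distrib, Finset.sum_const, Finset.card_univ, Fintype.card_fin,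
      nsmul_eq_mul, ← Finset.mul_sum]
    push_cast
    ring

theorem fold_min {α : Type} (s : Finset α) (g : α → ℝ) :
    s.fold min 1 g = 1 ∨ ∃ a ∈ s, s.fold min 1 g = g a := by
  classical
  induction s using Finset.induction_on with
  | empty => left; rfl
  | insert a s ha ih =>
    rw [Finset.fold_insert ha]
    rcases le_total (g a) (s.fold min 1 g) with h | h
    · right
      exact ⟨a, Finset.mem_insert_self _ _, min_eq_left h⟩
    · rw [min_eq_right h]
      rcases ih with h1 | ⟨b, hb, h1⟩
      · left; exact h1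
      · right; exact ⟨b, Finset.mem_insert_of_mem hb, h1⟩

theorem Bd_Vj (x : ℝ) (j : ℕ) : ∀ (Z : Finset T) (A : Multiset T), Bd x Z A (Vj x j Z A) := by
  induction j with
  | zero => intro Z A; exact Bd.one Z A
  | succ j ih =>
    intro Z A
    rw [Vj]
    rcases fold_min A.toFinset (fun y => stp x (Vj x j) Z (A.erase y) y) with h | ⟨y, hy, h⟩
    · rw [h]; exact Bd.one Z A
    · rw [h]
      have hyA : y ∈ A := Multiset.mem_toFinset.mp hy
      rw [← sum_stp (Vj x j) Z A hyA]
      exact Bd.step hyA _ fun c => ih _ _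

/-- L5: the link. -/
theorem slink : SLink := by
  intro h
  refine frozen_of_val (x := 1 / 2) (by norm_num) (by norm_num) fun ε hε => ?_
  obtain ⟨j, Z, hZ, hj⟩ := h ε hε
  exact ⟨Z, hZ, (Bd_Vj (1 / 2) j Z {[]}).mono hj⟩

end Pool.Agent.H43.Frog3
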