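import Mathlib

/-!
# Frog model on the ternary tree: values of the exploration game

Vertices are finite lists over `Fin 3`, the root is `[]`. A state of the game is a finite set `Z`
of sites with a sleeping frog and the multiset `A` of the positions of the awake frogs. The player
chooses an awake frog and moves it one step; every arrival at the root costs a factor `x`.
-/

set_option autoImplicit false

namespace Pool.Agent.H43.Frog3

/-- Vertices of the rooted ternary tree. -/
abbrev V := List (Fin 3)

/-- One step of randomness. -/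
abbrev Cc := Fin 3 × Fin 4

/-- One step of a walk. -/
def mv (a : V) (c : Cc) : V :=
  if a = [] then [c.1] else if c.2 = 0 then a.tail else c.1 :: a

/-- The weight of an arrival at `y`. -/
noncomputable def wt (x : ℝ) (y : V) : ℝ := if y = [] then x else 1

/-- The positions of the awake frogs after a frog has moved from `a` to `y`. -/
def an (Z : Finset V) (A : Multiset V) (a y : V) : Multiset V :=
  y ::ₘ ((if y ∈ Z then {y} else 0) + A.erase a)

/-- `Bd x Z A r`: some finite strategy has expected weight at most `r`. -/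
inductive Bd (x : ℝ) : Finset V → Multiset V → ℝ → Prop
  | one (Z : Finset V) (A : Multiset V) : Bd x Z A 1
  | mono {Z : Finset V} {A : Multiset V} {r r' : ℝ} : Bd x Z A r → r ≤ r' → Bd x Z A r'
  | step {Z : Finset V} {A : Multiset V} {a : V} (ha : a ∈ A) (r : Cc → ℝ)
      (h : ∀ c, Bd x (Z.erase (mv a c)) (an Z A a (mv a c)) (r c)) :
      Bd x Z A ((1 / 12) * ∑ c : Cc, wt x (mv a c) * r c)

/-- The value of the game. -/
noncomputable def Val (x : ℝ) (Z : Finset V) (A : Multiset V) : ℝ := sInf {r | Bd x Z A r}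

theorem wt_nonneg {x : ℝ} (hx : 0 ≤ x) (y : V) : 0 ≤ wt x y := by
  unfold wt; split_ifs <;> linarith

theorem wt_le_one {x : ℝ} (hx : x ≤ 1) (y : V) : wt x y ≤ 1 := by
  unfold wt; split_ifs <;> linarith

theorem card_Cc : (Finset.univ : Finset Cc).card = 12 := by decide

theorem Bd.nonneg {x : ℝ} (hx : 0 ≤ x) {Z : Finset V} {A : Multiset V} {r : ℝ}
    (h : Bd x Z A r) : 0 ≤ r := by
  induction h with
  | one => exact zero_le_one
  | mono _ h1 ih => exact ih.trans h1
  | step _ r _ ih =>
    exact mul_nonneg (by norm_num) (Finset.sum_nonneg fun c _ => mul_nonneg (wt_nonneg hx _) (ih c))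

theorem bddBelow {x : ℝ} (hx : 0 ≤ x) (Z : Finset V) (A : Multiset V) :
    BddBelow {r | Bd x Z A r} := ⟨0, fun _ h => h.nonneg hx⟩

theorem Val_nonneg {x : ℝ} (hx : 0 ≤ x) (Z : Finset V) (A : Multiset V) : 0 ≤ Val x Z A :=
  le_csInf ⟨1, Bd.one Z A⟩ fun _ h => Bd.nonneg hx h

theorem Val_le {x : ℝ} (hx : 0 ≤ x) {Z : Finset V} {A : Multiset V} {r : ℝ} (h : Bd x Z A r) :
    Val x Z A ≤ r := csInf_le (bddBelow hx Z A) h

theorem Val_le_one {x : ℝ} (hx : 0 ≤ x) (Z : Finset V) (A : Multiset V) : Val x Z A ≤ 1 :=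
  Val_le hx (Bd.one Z A)

theorem Bd_of_Val_lt {x : ℝ} {Z : Finset V} {A : Multiset V} {r : ℝ} (h : Val x Z A < r) :
    Bd x Z A r := by
  obtain ⟨s, hs, hsr⟩ := exists_lt_of_csInf_lt ⟨1, Bd.one Z A⟩ h
  exact Bd.mono hs hsr.le

/-- The value is at most the average over the moves of any awake frog. -/
theorem Val_step {x : ℝ} (hx : 0 ≤ x) (hx1 : x ≤ 1) {Z : Finset V} {A : Multiset V} {a : V}
    (ha : a ∈ A) : Val x Z A ≤
      (1 / 12) * ∑ c : Cc, wt x (mv a c) * Val x (Z.erase (mv a c)) (an Z A a (mv a c)) := by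
  refine le_of_forall_pos_le_add fun ε hε => ?_
  have h1 : ∀ c : Cc, Bd x (Z.erase (mv a c)) (an Z A a (mv a c))
      (Val x (Z.erase (mv a c)) (an Z A a (mv a c)) + ε) := fun c =>
    Bd_of_Val_lt (by linarith)
  refine (Val_le hx (Bd.step ha _ h1)).trans ?_
  have h2 : ∑ c : Cc, wt x (mv a c) * (Val x (Z.erase (mv a c)) (an Z A a (mv a c)) + ε) ≤
      ∑ c : Cc, (wt x (mv a c) * Val x (Z.erase (mv a c)) (an Z A a (mv a c)) + ε) := by
    refine Finset.sum_le_sum fun c _ => ?_
    have := wt_le_one hx1 (mv a c)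
    nlinarith
  rw [Finset.sum_add_distrib, Finset.sum_const, card_Cc] at h2
  simp only [nsmul_eq_mul] at h2
  push_cast at h2
  linarith

/-- More sleeping frogs, more awake frogs, or sleeping frogs already awake: one comparison. -/
theorem Bd.comp {x : ℝ} {Z : Finset V} {A : Multiset V} {r : ℝ} (h : Bd x Z A r) :
    ∀ (Z' D : Finset V) (A' : Multiset V), Z ⊆ Z' ∪ D → A + D.val ≤ A' → Bd x Z' A' r := by
  induction h with
  | one => intro Z' D A' _ _; exact Bd.one _ _
  | mono _ h1 ih => intro Z' D A' h2 h3; exact Bd.mono (ih Z' D A' h2 h3) h1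
  | @step Z A a ha r _ ih =>
    intro Z' D A' h2 h3
    have ha' : a ∈ A' := Multiset.mem_of_le h3 (Multiset.mem_add.mpr (Or.inl ha))
    refine Bd.step ha' r fun c => ?_
    set y := mv a c with hy
    refine ih c (Z'.erase y) (D.erase y) _ ?_ ?_
    · intro z hz
      rw [Finset.mem_erase] at hz
      have := h2 hz.2
      rw [Finset.mem_union] at this ⊢
      rw [Finset.mem_erase, Finset.mem_erase]
      rcases this with h | h
      · exact Or.inl ⟨hz.1, h⟩
      · exact Or.inr ⟨hz.1, h⟩
    · unfold an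
      have h4 : A.erase a + D.val ≤ A'.erase a := by
        have h5 := Multiset.erase_le_erase a h3
        rwa [Multiset.erase_add_left_pos _ ha] at h5
      rw [Multiset.cons_add]
      refine Multiset.cons_le_cons _ ?_
      by_cases hyD : y ∈ D
      · have h6 : D.val = y ::ₘ (D.erase y).val := by
          rw [Finset.erase_val, Multiset.cons_erase hyD]
        have h7 : (if y ∈ Z then {y} else 0 : Multiset V) ≤ {y} := by
          split_ifs
          · exact le_rfl
          · exact Multiset.zero_le _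
        calc (if y ∈ Z then {y} else 0) + A.erase a + (D.erase y).val
            ≤ {y} + A.erase a + (D.erase y).val := by gcongr
          _ = A.erase a + D.val := by
              rw [h6, ← Multiset.singleton_add y]; abel
          _ ≤ A'.erase a := h4
          _ ≤ (if y ∈ Z' then {y} else 0) + A'.erase a := Multiset.le_add_left _ _
      · rw [Finset.erase_eq_of_notMem hyD, add_assoc]
        refine add_le_add ?_ h4
        by_cases hyZ : y ∈ Z
        · have : y ∈ Z' := by
            rcases Finset.mem_union.mp (h2 hyZ) with h | h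
            · exact h
            · exact absurd h hyD
          rw [if_pos hyZ, if_pos this]
        · rw [if_neg hyZ]; exact Multiset.zero_le _

theorem Val_comp {x : ℝ} (hx : 0 ≤ x) {Z Z' D : Finset V} {A A' : Multiset V}
    (h1 : Z ⊆ Z' ∪ D) (h2 : A + D.val ≤ A') : Val x Z' A' ≤ Val x Z A :=
  csInf_le_csInf (bddBelow hx Z' A') ⟨1, Bd.one Z A⟩ fun _ h => h.comp Z' D A' h1 h2

/-- Monotonicity: more sleeping and more awake frogs. -/
theorem Val_mono {x : ℝ} (hx : 0 ≤ x) {Z Z' : Finset V} {A A' : Multiset V}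
    (h1 : Z ⊆ Z') (h2 : A ≤ A') : Val x Z' A' ≤ Val x Z A :=
  Val_comp (D := ∅) hx (by simpa using h1) (by simpa using h2)

/-- Waking a frog earlier does not increase the value. -/
theorem Val_wake {x : ℝ} (hx : 0 ≤ x) (Z D : Finset V) (A : Multiset V) :
    Val x (Z \ D) (A + D.val) ≤ Val x Z A :=
  Val_comp (D := D) hx (fun z hz => by
    rw [Finset.mem_union, Finset.mem_sdiff]; by_cases h : z ∈ D <;> simp [h, hz]) le_rfl

/-- Symmetry: `f` maps the moves of a frog at `a` to the moves of a frog at `f a`. -/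
structure Auto (f : V → V) : Prop where
  inj : Function.Injective f
  root : ∀ a, f a = [] ↔ a = []
  move : ∀ a, ∃ e : Cc ≃ Cc, ∀ c, mv (f a) (e c) = f (mv a c)

theorem Bd.auto {x : ℝ} {f : V → V} (hf : Auto f) {Z : Finset V} {A : Multiset V} {r : ℝ}
    (h : Bd x Z A r) : Bd x (Z.map ⟨f, hf.inj⟩) (A.map f) r := by
  induction h with
  | one => exact Bd.one _ _
  | mono _ h1 ih => exact Bd.mono ih h1
  | @step Z A a ha r _ ih =>
    obtain ⟨e, he⟩ := hf.move a
    have key : Bd x (Z.map ⟨f, hf.inj⟩) (A.map f)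
        ((1 / 12) * ∑ c : Cc, wt x (mv (f a) c) * r (e.symm c)) := by
      refine Bd.step (Multiset.mem_map_of_mem f ha) (fun c => r (e.symm c)) fun c => ?_
      have h1 := ih (e.symm c)
      have h2 := he (e.symm c)
      rw [Equiv.apply_symm_apply] at h2
      set y := mv a (e.symm c) with hy
      rw [h2]
      have h3 : (Z.map ⟨f, hf.inj⟩).erase (f y) = (Z.erase y).map ⟨f, hf.inj⟩ := by
        rw [Finset.map_erase]; rfl
      have h4 : an (Z.map ⟨f, hf.inj⟩) (A.map f) (f a) (f y) = (an Z A a y).map f := by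
        unfold an
        rw [Multiset.map_cons, Multiset.map_add, Multiset.map_erase f hf.inj]
        congr 2
        by_cases hyZ : y ∈ Z
        · have : f y ∈ Z.map ⟨f, hf.inj⟩ := Finset.mem_map_of_mem ⟨f, hf.inj⟩ hyZ
          rw [if_pos hyZ, if_pos this]; rfl
        · have : f y ∉ Z.map ⟨f, hf.inj⟩ := by
            intro h
            rw [Finset.mem_map] at h
            obtain ⟨z, hz, hz2⟩ := h
            have := hf.inj hz2
            exact hyZ (this ▸ hz)
          rw [if_neg hyZ, if_neg this]; rfl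
      rw [h3, h4]
      exact h1
    have h5 : ∑ c : Cc, wt x (mv (f a) c) * r (e.symm c) = ∑ c : Cc, wt x (mv a c) * r c := by
      rw [← Equiv.sum_comp e]
      refine Finset.sum_congr rfl fun c _ => ?_
      rw [he, Equiv.symm_apply_apply]
      congr 1
      unfold wt
      by_cases h : mv a c = []
      · rw [if_pos h, if_pos ((hf.root _).mpr h)]
      · rw [if_neg h, if_neg fun hh => h ((hf.root _).mp hh)]
    rw [h5] at key
    exact key

theorem Val_auto {x : ℝ} (hx : 0 ≤ x) {f : V → V} (hf : Auto f) (Z : Finset V) (A : Multiset V) :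
    Val x (Z.map ⟨f, hf.inj⟩) (A.map f) ≤ Val x Z A :=
  csInf_le_csInf (bddBelow hx _ _) ⟨1, Bd.one Z A⟩ fun _ h => h.auto hf

end Pool.Agent.H43.Frog3
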