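import Pool.Agent.H43.Frog3.Game

/-!
# From the values of the exploration game to the frog model
-/

set_option autoImplicit false

open MeasureTheory ProbabilityTheory
open scoped ENNReal

namespace Pool.Agent.H43.Frog3

/-- The driving randomness of the frog model (same hypotheses as in the statement). -/
structure Model {Ω : Type} [MeasurableSpace Ω] (P : Measure Ω)
    (ξ : V → ℕ → Ω → Cc) (S : V → ℕ → Ω → V) : Prop where
  meas : ∀ v k, Measurable (ξ v k)
  indep : iIndepFun (fun p : V × ℕ => ξ p.1 p.2) P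
  unif : ∀ v k (c : Cc), P (ξ v k ⁻¹' {c}) = 1 / 12
  zero : ∀ v ω, S v 0 ω = v
  succ : ∀ v k ω, S v (k + 1) ω = mv (S v k ω) (ξ v k ω)

/-- Finite strategies. -/
inductive Tr
  | stop : Tr
  | node (v : V) (k : Cc → Tr) : Tr

/-- Configurations: number of revealed steps and position of every frog, awake frogs of the game,
sleeping frogs of the game. -/
structure Cf where
  cnt : V → ℕ
  pos : V → V
  F : Finset V
  Z : Finset V

/-- Move the frog `v` with the randomness `c`. -/
def Cf.move (s : Cf) (v : V) (c : Cc) : Cf :=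
  ⟨Function.update s.cnt v (s.cnt v + 1), Function.update s.pos v (mv (s.pos v) c),
    if mv (s.pos v) c ∈ s.Z then insert (mv (s.pos v) c) s.F else s.F,
    s.Z.erase (mv (s.pos v) c)⟩

/-- The invariant of the configurations. -/
structure Cf.Inv (s : Cf) : Prop where
  disj : ∀ v ∈ s.Z, v ∉ s.F
  pos : ∀ v ∈ s.Z, s.pos v = v
  cnt : ∀ v ∈ s.Z, s.cnt v = 0

theorem Cf.Inv.move {s : Cf} (h : s.Inv) {v : V} (hv : v ∈ s.F) (c : Cc) : (s.move v c).Inv := by
  have hne : ∀ u ∈ s.Z, u ≠ v := fun u hu huv => h.disj u hu (huv ▸ hv)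
  constructor
  · intro u hu
    simp only [Cf.move, Finset.mem_erase] at hu ⊢
    split_ifs with h1
    · rw [Finset.mem_insert, not_or]
      exact ⟨hu.1, h.disj u hu.2⟩
    · exact h.disj u hu.2
  · intro u hu
    simp only [Cf.move, Finset.mem_erase] at hu ⊢
    rw [Function.update_of_ne (hne u hu.2)]
    exact h.pos u hu.2
  · intro u hu
    simp only [Cf.move, Finset.mem_erase] at hu ⊢
    rw [Function.update_of_ne (hne u hu.2)]
    exact h.cnt u hu.2

/-- The positions of the awake frogs. -/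
def Cf.A (s : Cf) : Multiset V := s.F.val.map s.pos

theorem Cf.A_move {s : Cf} (h : s.Inv) {v : V} (hv : v ∈ s.F) (c : Cc) :
    (s.move v c).A = an s.Z s.A (s.pos v) (mv (s.pos v) c) := by
  set y := mv (s.pos v) c with hy
  have h0 : s.F.val.map (Function.update s.pos v y) = y ::ₘ (s.F.val.map s.pos).erase (s.pos v) := by
    have h1 : s.F.val = v ::ₘ (s.F.erase v).val := by
      rw [Finset.erase_val, Multiset.cons_erase hv]
    rw [h1, Multiset.map_cons, Multiset.map_cons, Multiset.erase_cons_head, Function.update_self]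
    congr 1
    refine Multiset.map_congr rfl fun u hu => ?_
    have hu' : u ∈ s.F.erase v := hu
    rw [Function.update_of_ne (Finset.ne_of_mem_erase hu')]
  unfold Cf.A an Cf.move
  simp only [← hy]
  by_cases hyZ : y ∈ s.Z
  · rw [if_pos hyZ, if_pos hyZ]
    have hyF : y ∉ s.F := h.disj y hyZ
    rw [Finset.insert_val_of_notMem hyF, Multiset.map_cons, h0]
    have hyv : y ≠ v := fun hh => hyF (hh ▸ hv)
    rw [Function.update_of_ne hyv, h.pos y hyZ, Multiset.singleton_add]
  · rw [if_neg hyZ, if_neg hyZ, h0, zero_add]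

/-- The strategy only moves awake frogs. -/
def OK : Tr → Cf → Prop
  | .stop, _ => True
  | .node v k, s => v ∈ s.F ∧ ∀ c, OK (k c) (s.move v c)

/-- The expected weight of a strategy. -/
noncomputable def valT (x : ℝ) : Tr → Cf → ℝ
  | .stop, _ => 1
  | .node v k, s => (1 / 12) * ∑ c : Cc, wt x (mv (s.pos v) c) * valT x (k c) (s.move v c)

theorem exists_tree {x : ℝ} (hx : 0 ≤ x) {Z : Finset V} {A : Multiset V} {r : ℝ}
    (h : Bd x Z A r) : ∀ s : Cf, s.Inv → s.Z = Z → s.A = A → ∃ t, OK t s ∧ valT x t s ≤ r := by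
  induction h with
  | one => intro s _ _ _; exact ⟨.stop, trivial, le_rfl⟩
  | mono _ h1 ih =>
    intro s h2 h3 h4
    obtain ⟨t, ht, ht2⟩ := ih s h2 h3 h4
    exact ⟨t, ht, ht2.trans h1⟩
  | @step Z A a ha r _ ih =>
    intro s h2 h3 h4
    subst h3 h4
    obtain ⟨v, hv, hva⟩ := Multiset.mem_map.mp ha
    subst hva
    have h5 : ∀ c : Cc, ∃ t, OK t (s.move v c) ∧ valT x t (s.move v c) ≤ r c := fun c =>
      ih c (s.move v c) (h2.move hv c) rfl (Cf.A_move h2 hv c)
    choose k hk hk2 using h5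
    refine ⟨.node v k, ⟨hv, hk⟩, ?_⟩
    simp only [valT]
    gcongr with c _
    · exact wt_nonneg hx _
    · exact hk2 c

section run

variable {Ω : Type} (ξ : V → ℕ → Ω → Cc)

/-- The number of arrivals at the root seen by a strategy. -/
def run : Tr → Cf → Ω → ℕ
  | .stop, _, _ => 0
  | .node v k, s, ω => (if mv (s.pos v) (ξ v (s.cnt v) ω) = [] then 1 else 0) +
      run (k (ξ v (s.cnt v) ω)) (s.move v (ξ v (s.cnt v) ω)) ω

/-- The weight of a run. -/
noncomputable def rw (x : ℝ) (t : Tr) (s : Cf) (ω : Ω) : ℝ≥0∞ := ENNReal.ofReal (x ^ run ξ t s ω)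

/-- The sigma-algebra of the not yet revealed randomness. -/
@[instance_reducible] def Fut (cnt : V → ℕ) : MeasurableSpace Ω :=
  ⨆ q ∈ {q : V × ℕ | cnt q.1 ≤ q.2}, MeasurableSpace.comap (fun ω => ξ q.1 q.2 ω) inferInstance

variable {ξ}

theorem Fut_mono {c c' : V → ℕ} (h : ∀ v, c v ≤ c' v) : Fut ξ c' ≤ Fut ξ c := by
  unfold Fut
  apply biSup_mono
  intro q hq
  exact le_trans (h _) hq

theorem Fut_le [mΩ : MeasurableSpace Ω] (hξ : ∀ v k, Measurable (ξ v k))
    (c : V → ℕ) : Fut ξ c ≤ mΩ := by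
  unfold Fut
  refine iSup₂_le fun q _ => ?_
  exact (hξ q.1 q.2).comap_le

theorem Fut_meas (cnt : V → ℕ) (v : V) (k : ℕ) (h : cnt v ≤ k) :
    Measurable[Fut ξ cnt] (ξ v k) := by
  have h1 : MeasurableSpace.comap (fun ω => ξ v k ω) inferInstance ≤ Fut ξ cnt := by
    unfold Fut
    exact le_iSup₂_of_le (v, k) h le_rfl
  exact Measurable.mono (comap_measurable _) h1 le_rfl

theorem rw_decomp {x : ℝ} (hx : 0 ≤ x) (v : V) (k : Cc → Tr) (s : Cf) :
    rw ξ x (.node v k) s = fun ω => ∑ c : Cc, ENNReal.ofReal (wt x (mv (s.pos v) c)) *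
      (rw ξ x (k c) (s.move v c) ω * (ξ v (s.cnt v) ⁻¹' {c}).indicator (fun _ => 1) ω) := by
  funext ω
  rw [Finset.sum_eq_single (ξ v (s.cnt v) ω)]
  · simp only [rw, run]
    rw [Set.indicator_of_mem (by simp), mul_one, ← ENNReal.ofReal_mul (wt_nonneg hx _)]
    congr 1
    rw [pow_add]
    congr 1
    unfold wt
    split_ifs <;> simp
  · intro c _ hc
    rw [Set.indicator_of_notMem]
    · simp
    · simpa using fun h => hc h.symm
  · simp

theorem cnt_le_move (s : Cf) (v : V) (c : Cc) (u : V) : s.cnt u ≤ (s.move v c).cnt u := by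
  simp only [Cf.move, Function.update_apply]
  split_ifs with hu
  · subst hu; omega
  · exact le_rfl

theorem cnt_move_self (s : Cf) (v : V) (c : Cc) : (s.move v c).cnt v = s.cnt v + 1 := by
  simp [Cf.move]

theorem rw_meas {x : ℝ} (hx : 0 ≤ x) : ∀ (t : Tr) (s : Cf),
    Measurable[Fut ξ s.cnt] (rw ξ x t s) := by
  intro t
  induction t with
  | stop =>
    intro s
    have : rw ξ x .stop s = fun _ => 1 := by
      funext ω; simp [rw, run]
    rw [this]; exact measurable_const
  | node v k ih =>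
    intro s
    rw [rw_decomp hx]
    refine Finset.measurable_fun_sum _ fun c _ => ?_
    refine Measurable.mul measurable_const (Measurable.mul ?_ ?_)
    · exact Measurable.mono (ih c _) (Fut_mono fun u => cnt_le_move s v c u) le_rfl
    · refine Measurable.indicator measurable_const ?_
      exact Fut_meas _ v _ le_rfl (measurableSet_singleton c)

end run

section integral

variable {Ω : Type} [mΩ : MeasurableSpace Ω] {P : Measure Ω}
  [IsProbabilityMeasure P] {ξ : V → ℕ → Ω → Cc} {S : V → ℕ → Ω → V}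

omit [IsProbabilityMeasure P] in
theorem indep_fut (hM : Model P ξ S) (cnt : V → ℕ) (v : V) (k : ℕ) (h : k < cnt v) (c : Cc) :
    IndepSets {s | MeasurableSet[Fut ξ cnt] s} {ξ v k ⁻¹' {c}} P := by
  have hi := hM.indep.iIndep
  have hle : ∀ q : V × ℕ, MeasurableSpace.comap (fun ω => ξ q.1 q.2 ω) inferInstance ≤ mΩ :=
    fun q => (hM.meas q.1 q.2).comap_le
  have hd : Disjoint {q : V × ℕ | cnt q.1 ≤ q.2} {((v, k) : V × ℕ)} := by
    rw [Set.disjoint_singleton_right]
    simp only [Set.mem_ofPred_eq]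
    omega
  have h1 := indep_iSup_of_disjoint hle hi hd
  rw [Indep_iff] at h1
  rw [IndepSets_iff]
  intro s t hs ht
  refine h1 s t hs ?_
  rw [Set.mem_singleton_iff] at ht
  subst ht
  have h2 : MeasurableSpace.comap (fun ω => ξ v k ω) inferInstance ≤
      ⨆ i ∈ ({((v, k) : V × ℕ)} : Set (V × ℕ)),
        MeasurableSpace.comap (fun ω => ξ i.1 i.2 ω) inferInstance :=
    le_iSup₂_of_le (v, k) rfl le_rfl
  exact h2 _ ⟨{c}, measurableSet_singleton c, rfl⟩

theorem valT_nonneg {x : ℝ} (hx : 0 ≤ x) : ∀ (t : Tr) (s : Cf), 0 ≤ valT x t s := by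
  intro t
  induction t with
  | stop => intro s; exact zero_le_one
  | node v k ih =>
    intro s
    exact mul_nonneg (by norm_num) (Finset.sum_nonneg fun c _ => mul_nonneg (wt_nonneg hx _) (ih c _))

theorem lint_rw (hM : Model P ξ S) {x : ℝ} (hx : 0 ≤ x) : ∀ (t : Tr) (s : Cf),
    ∫⁻ ω, rw ξ x t s ω ∂P = ENNReal.ofReal (valT x t s) := by
  intro t
  induction t with
  | stop => intro s; simp [rw, run, valT]
  | node v k ih =>
    intro s
    have hme : ∀ c : Cc, Measurable[Fut ξ (s.move v c).cnt] (rw ξ x (k c) (s.move v c)) :=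
      fun c => rw_meas hx _ _
    have hme' : ∀ c : Cc, Measurable (rw ξ x (k c) (s.move v c)) := fun c =>
      (hme c).mono (Fut_le hM.meas _) le_rfl
    have hT : ∀ c : Cc, MeasurableSet (ξ v (s.cnt v) ⁻¹' {c}) := fun c =>
      hM.meas v _ (measurableSet_singleton c)
    rw [rw_decomp hx, lintegral_finsetSum]
    · simp only [valT]
      rw [ENNReal.ofReal_mul (by norm_num), ENNReal.ofReal_sum_of_nonneg (fun c _ =>
        mul_nonneg (wt_nonneg hx _) (valT_nonneg hx _ _)), Finset.mul_sum]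
      refine Finset.sum_congr rfl fun c _ => ?_
      have hmm : Measurable fun ω => rw ξ x (k c) (s.move v c) ω *
          (ξ v (s.cnt v) ⁻¹' {c}).indicator (fun _ => (1 : ℝ≥0∞)) ω :=
        (hme' c).mul (measurable_const.indicator (hT c))
      rw [lintegral_const_mul _ hmm,
        lintegral_mul_indicator_eq_lintegral_mul_lintegral_indicator (Fut_le hM.meas _) 1
          (hT c) (indep_fut hM _ v _ (by rw [cnt_move_self]; omega) c) (hme c),
        lintegral_indicator (hT c), lintegral_const, Measure.restrict_apply MeasurableSet.univ,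
        Set.univ_inter, one_mul, hM.unif, ih c, ENNReal.ofReal_mul (wt_nonneg hx _)]
      rw [ENNReal.ofReal_div_of_pos (by norm_num)]
      simp only [ENNReal.ofReal_one, ENNReal.ofReal_ofNat]
      ring
    · intro c _
      exact measurable_const.mul ((hme' c).mul (measurable_const.indicator (hT c)))

end integral

section path

variable {Ω : Type} {ξ : V → ℕ → Ω → Cc} {S : V → ℕ → Ω → V}

/-- The woken frogs. -/
def Wo (S : V → ℕ → Ω → V) (ω : Ω) : Set V :=
  {v | ∀ A : Set V, [] ∈ A → (∀ u ∈ A, ∀ k, S u k ω ∈ A) → v ∈ A}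

theorem Wo_root (ω : Ω) : [] ∈ Wo S ω := fun _ h _ => h

theorem Wo_closed {ω : Ω} {v : V} (hv : v ∈ Wo S ω) (k : ℕ) : S v k ω ∈ Wo S ω :=
  fun A h0 h1 => h1 v (hv A h0 h1) k

/-- The visits to the root. -/
def Vis (S : V → ℕ → Ω → V) (ω : Ω) : Set (V × ℕ) := {p | p.1 ∈ Wo S ω ∧ S p.1 p.2 ω = []}

/-- The visits after the revealed part. -/
def Rv (S : V → ℕ → Ω → V) (ω : Ω) (s : Cf) : Set (V × ℕ) :=
  {p | p ∈ Vis S ω ∧ s.cnt p.1 < p.2}

/-- The configuration describes the realisation. -/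
structure Good (S : V → ℕ → Ω → V) (ω : Ω) (s : Cf) : Prop where
  pos : ∀ v ∈ s.F, s.pos v = S v (s.cnt v) ω
  wo : ∀ v ∈ s.F, v ∈ Wo S ω

theorem Good.move (hz : ∀ v ω, S v 0 ω = v)
    (hs : ∀ v k ω, S v (k + 1) ω = mv (S v k ω) (ξ v k ω)) {ω : Ω} {s : Cf}
    (h : Good S ω s) (hI : s.Inv) {v : V} (hv : v ∈ s.F) :
    Good S ω (s.move v (ξ v (s.cnt v) ω)) := by
  have hpv : mv (s.pos v) (ξ v (s.cnt v) ω) = S v (s.cnt v + 1) ω := by
    rw [hs, h.pos v hv]
  have hwo : mv (s.pos v) (ξ v (s.cnt v) ω) ∈ Wo S ω := by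
    rw [hpv]; exact Wo_closed (h.wo v hv) _
  have hbase : ∀ u ∈ s.F, (s.move v (ξ v (s.cnt v) ω)).pos u =
      S u ((s.move v (ξ v (s.cnt v) ω)).cnt u) ω := by
    intro u hu
    simp only [Cf.move]
    by_cases huv : u = v
    · subst huv
      rw [Function.update_self, Function.update_self, hpv]
    · rw [Function.update_of_ne huv, Function.update_of_ne huv]
      exact h.pos u hu
  constructor
  · intro u hu
    by_cases huF : u ∈ s.F
    · exact hbase u huF
    · have huZ : u ∈ s.Z ∧ u = mv (s.pos v) (ξ v (s.cnt v) ω) := by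
        simp only [Cf.move] at hu
        split_ifs at hu with h1
        · rcases Finset.mem_insert.mp hu with h2 | h2
          · exact ⟨h2 ▸ h1, h2⟩
          · exact absurd h2 huF
        · exact absurd hu huF
      have huv : u ≠ v := fun hh => huF (hh ▸ hv)
      simp only [Cf.move]
      rw [Function.update_of_ne huv, Function.update_of_ne huv, hI.pos u huZ.1,
        hI.cnt u huZ.1, hz]
  · intro u hu
    simp only [Cf.move] at hu
    split_ifs at hu with h1
    · rcases Finset.mem_insert.mp hu with h2 | h2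
      · rw [h2]; exact hwo
      · exact h.wo u h2
    · exact h.wo u hu

theorem run_le (hz : ∀ v ω, S v 0 ω = v)
    (hs : ∀ v k ω, S v (k + 1) ω = mv (S v k ω) (ξ v k ω)) (ω : Ω) : ∀ (t : Tr) (s : Cf),
    OK t s → s.Inv → Good S ω s → (run ξ t s ω : ℕ∞) ≤ (Rv S ω s).encard := by
  intro t
  induction t with
  | stop => intro s _ _ _; simp [run]
  | node v k ih =>
    intro s hok hI hG
    obtain ⟨hv, hk⟩ := hok
    have h1 := ih (ξ v (s.cnt v) ω) (s.move v (ξ v (s.cnt v) ω)) (hk _) (hI.move hv _)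
      (hG.move hz hs hI hv)
    have hpv : mv (s.pos v) (ξ v (s.cnt v) ω) = S v (s.cnt v + 1) ω := by
      rw [hs, hG.pos v hv]
    have hsub : Rv S ω (s.move v (ξ v (s.cnt v) ω)) ⊆ Rv S ω s := by
      intro p hp
      exact ⟨hp.1, lt_of_le_of_lt (cnt_le_move s v _ p.1) hp.2⟩
    have hnot : ((v, s.cnt v + 1) : V × ℕ) ∉ Rv S ω (s.move v (ξ v (s.cnt v) ω)) := by
      rintro ⟨_, h2⟩
      rw [cnt_move_self] at h2
      exact lt_irrefl _ h2
    simp only [run]
    by_cases hr : mv (s.pos v) (ξ v (s.cnt v) ω) = []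
    · rw [if_pos hr]
      have hmem : ((v, s.cnt v + 1) : V × ℕ) ∈ Rv S ω s :=
        ⟨⟨hG.wo v hv, by rw [← hpv]; exact hr⟩, Nat.lt_succ_self _⟩
      have h3 : (Rv S ω (s.move v (ξ v (s.cnt v) ω))).encard + 1 ≤ (Rv S ω s).encard := by
        rw [← Set.encard_insert_of_notMem hnot]
        exact Set.encard_le_encard (Set.insert_subset hmem hsub)
      push_cast
      rw [add_comm]
      exact (add_le_add_left h1 1).trans h3
    · rw [if_neg hr, zero_add]
      exact h1.trans (Set.encard_le_encard hsub)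

end path

/-- The initial configuration. -/
def Cf.init (Z : Finset V) : Cf := ⟨fun _ => 0, id, {[]}, Z⟩

theorem prob_le {Ω : Type} [MeasurableSpace Ω] {P : Measure Ω} [IsProbabilityMeasure P]
    {ξ : V → ℕ → Ω → Cc} {S : V → ℕ → Ω → V} (hM : Model P ξ S) {x : ℝ} (hx : 0 < x)
    (hx1 : x ≤ 1) {Z : Finset V} (hZ : [] ∉ Z) {r : ℝ} (hr : Bd x Z {[]} r) (m : ℕ) :
    ENNReal.ofReal (x ^ m) * P {ω | (Vis S ω).encard ≤ m} ≤ ENNReal.ofReal r := by
  have hI : (Cf.init Z).Inv := by
    constructor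
    · intro v hv
      simp only [Cf.init, Finset.mem_singleton]
      rintro rfl
      exact hZ hv
    · intro v _; rfl
    · intro v _; rfl
  obtain ⟨t, hok, hval⟩ := exists_tree hx.le hr (Cf.init Z) hI rfl (by simp [Cf.A, Cf.init])
  have h1 : {ω | (Vis S ω).encard ≤ m} ⊆ {ω | ENNReal.ofReal (x ^ m) ≤ rw ξ x t (Cf.init Z) ω} := by
    intro ω hω
    have hG : Good S ω (Cf.init Z) := by
      constructor
      · intro v hv
        simp only [Cf.init]
        rw [hM.zero]; rfl
      · intro v hv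
        simp only [Cf.init, Finset.mem_singleton] at hv
        rw [hv]; exact Wo_root ω
    have h2 := run_le hM.zero hM.succ ω t (Cf.init Z) hok hI hG
    have h3 : (Rv S ω (Cf.init Z)).encard ≤ (Vis S ω).encard :=
      Set.encard_le_encard fun p hp => hp.1
    have h4 : (run ξ t (Cf.init Z) ω : ℕ∞) ≤ m := (h2.trans h3).trans hω
    have h5 : run ξ t (Cf.init Z) ω ≤ m := by exact_mod_cast h4
    show ENNReal.ofReal (x ^ m) ≤ rw ξ x t (Cf.init Z) ω
    unfold rw
    exact ENNReal.ofReal_le_ofReal (pow_le_pow_of_le_one hx.le hx1 h5)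
  calc ENNReal.ofReal (x ^ m) * P {ω | (Vis S ω).encard ≤ m}
      ≤ ENNReal.ofReal (x ^ m) * P {ω | ENNReal.ofReal (x ^ m) ≤ rw ξ x t (Cf.init Z) ω} := by
        gcongr
    _ ≤ ∫⁻ ω, rw ξ x t (Cf.init Z) ω ∂P :=
        mul_meas_ge_le_lintegral ((rw_meas hx.le t _).mono (Fut_le hM.meas _) le_rfl) _
    _ = ENNReal.ofReal (valT x t (Cf.init Z)) := lint_rw hM hx.le t _
    _ ≤ ENNReal.ofReal r := ENNReal.ofReal_le_ofReal hval

/-- If for some weight `x < 1` the values of the game started from the root frog get arbitrarily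
small, then almost surely the root is visited infinitely often. -/
theorem recurrent_of_val {x : ℝ} (hx : 0 < x) (hx1 : x ≤ 1)
    (h : ∀ ε : ℝ, 0 < ε → ∃ Z : Finset V, [] ∉ Z ∧ Bd x Z {[]} ε)
    {Ω : Type} [MeasurableSpace Ω] {P : Measure Ω} [IsProbabilityMeasure P]
    {ξ : V → ℕ → Ω → Cc} {S : V → ℕ → Ω → V} (hM : Model P ξ S) :
    ∀ᵐ ω ∂P, (Vis S ω).Infinite := by
  have h0 : ∀ m : ℕ, P {ω | (Vis S ω).encard ≤ m} = 0 := by
    intro m
    have hxm : 0 < x ^ m := pow_pos hx m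
    by_contra hcon
    have hc : 0 < ENNReal.ofReal (x ^ m) * P {ω | (Vis S ω).encard ≤ m} :=
      pos_iff_ne_zero.mpr (mul_ne_zero (by simpa using hxm) hcon)
    have hfin : ENNReal.ofReal (x ^ m) * P {ω | (Vis S ω).encard ≤ m} ≠ ⊤ :=
      ENNReal.mul_ne_top ENNReal.ofReal_ne_top (measure_ne_top P _)
    set q := (ENNReal.ofReal (x ^ m) * P {ω | (Vis S ω).encard ≤ m}).toReal with hq
    have hqpos : 0 < q := ENNReal.toReal_pos hc.ne' hfin
    obtain ⟨Z, hZ, hB⟩ := h (q / 2) (by linarith)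
    have h1 := prob_le hM hx hx1 hZ hB m
    rw [← ENNReal.ofReal_toReal hfin, ← hq] at h1
    have h2 := (ENNReal.ofReal_le_ofReal_iff (by linarith)).mp h1
    linarith
  have h1 : P (⋃ m : ℕ, {ω | (Vis S ω).encard ≤ m}) = 0 := measure_iUnion_null h0
  have h2 : {ω | ¬ (Vis S ω).Infinite} ⊆ ⋃ m : ℕ, {ω | (Vis S ω).encard ≤ m} := by
    intro ω hω
    have hf : (Vis S ω).Finite := Set.not_infinite.mp hω
    obtain ⟨n, hn⟩ := hf.exists_encard_eq_coe
    exact Set.mem_iUnion.mpr ⟨n, hn.le⟩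
  exact measure_mono_null h2 h1

/-- The frozen statement, from small values of the game. -/
theorem frozen_of_val {x : ℝ} (hx : 0 < x) (hx1 : x ≤ 1)
    (h : ∀ ε : ℝ, 0 < ε → ∃ Z : Finset V, [] ∉ Z ∧ Bd x Z {[]} ε) :
    ∀ (Ω : Type) [MeasurableSpace Ω] (P : Measure Ω) [IsProbabilityMeasure P]
      (ξ : List (Fin 3) → ℕ → Ω → Fin 3 × Fin 4),
      (∀ v k, Measurable (ξ v k)) →
      iIndepFun (fun p : List (Fin 3) × ℕ => ξ p.1 p.2) P →
      (∀ v k (c : Fin 3 × Fin 4), P (ξ v k ⁻¹' {c}) = 1 / 12) →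
      ∀ (S : List (Fin 3) → ℕ → Ω → List (Fin 3)),
      (∀ v ω, S v 0 ω = v) →
      (∀ v k ω, S v (k + 1) ω =
        if S v k ω = [] then [(ξ v k ω).1]
        else if (ξ v k ω).2 = 0 then (S v k ω).tail
        else (ξ v k ω).1 :: S v k ω) →
      ∀ᵐ ω ∂P, Set.Infinite
        {p : List (Fin 3) × ℕ |
          (∀ A : Set (List (Fin 3)), [] ∈ A →
              (∀ v ∈ A, ∀ k, S v k ω ∈ A) → p.1 ∈ A) ∧
          S p.1 p.2 ω = []} := by
  intro Ω _ P _ ξ h1 h2 h3 S h4 h5
  exact recurrent_of_val hx hx1 h (S := S) (ξ := ξ) ⟨h1, h2, h3, h4, h5⟩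

end Pool.Agent.H43.Frog3
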